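import Pool.Agent.Results.MP_1a6d78_lc.DepthThreshold
import Pool.Agent.TH706.SK.Eps

set_option autoImplicit false

/-!
# The depth threshold with a stack
-/

namespace Pool.Agent.TH706.DT

open Filter
open Pool.Agent.TH679.NC (Gate par)
open Pool.Agent.H564R3.PW (Instr exec)
open Pool.Agent.TH706.SK (SInstr sexec sruns sruns_cons simulate_eps)

section Rec

variable {R X ρ : Type} [CommSemiring R]

/-- the recursive evaluation of register `o` after `r` rounds, with two registers and a stack -/
def scode (G : ℕ → ρ → Gate R X ρ) : ℕ → ρ → List (SInstr R X (Fin 2))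
  | 0, _ => [.op (.const 0 0)]
  | r + 1, o =>
    match G r o with
    | .load x => [.op (.load 0 x)]
    | .const c => [.op (.const 0 c)]
    | .copy i => scode G r i
    | .add i j => scode G r i ++ (.push 0 :: (scode G r j ++ [.pop 1, .op (.add 0 1 0)]))
    | .mul i j => scode G r i ++ (.push 0 :: (scode G r j ++ [.pop 1, .op (.mul 0 1 0)]))

theorem scode_length (G : ℕ → ρ → Gate R X ρ) (r : ℕ) :
    ∀ o, (scode G r o).length + 3 ≤ 4 * 2 ^ r := by
  induction r with
  | zero => intro o; simp [scode]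
  | succ r ih =>
    intro o
    have hp : 1 ≤ 2 ^ r := Nat.one_le_two_pow
    rw [pow_succ]
    unfold scode
    split
    · simp only [List.length_singleton]; omega
    · simp only [List.length_singleton]; omega
    · rename_i i _
      have := ih i
      omega
    · rename_i i j _
      have h1 := ih i
      have h2 := ih j
      simp only [List.length_append, List.length_cons, List.length_nil]
      omega
    · rename_i i j _
      have h1 := ih i
      have h2 := ih j
      simp only [List.length_append, List.length_cons, List.length_nil]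
      omega

theorem sruns_append (w : X → R) (p q : List (SInstr R X (Fin 2))) (s : (Fin 2 → R) × List R) :
    sruns w (p ++ q) s = sruns w q (sruns w p s) := by
  unfold sruns
  rw [List.foldl_append]

theorem scode_run (G : ℕ → ρ → Gate R X ρ) (w : X → R) (r : ℕ) :
    ∀ (o : ρ) (v : Fin 2 → R) (σ : List R), (sruns w (scode G r o) (v, σ)).1 0 = par w G r o ∧
      (sruns w (scode G r o) (v, σ)).2 = σ := by
  induction r with
  | zero =>
    intro o v σ
    constructor
    · show Function.update v 0 (0 : R) 0 = 0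
      exact Function.update_self _ _ _
    · rfl
  | succ r ih =>
    intro o v σ
    have key : ∀ (op : R → R → R) (I : Instr R X (Fin 2)),
        (∀ u : Fin 2 → R, I.run w u = Function.update u 0 (op (u 1) (u 0))) →
        ∀ i j, (sruns w (scode G r i ++ (.push 0 :: (scode G r j ++ [.pop 1, .op I]))) (v, σ)).1 0 =
          op (par w G r i) (par w G r j) ∧
          (sruns w (scode G r i ++ (.push 0 :: (scode G r j ++ [.pop 1, .op I]))) (v, σ)).2 = σ := by
      intro op I hI i j
      rw [sruns_append]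
      obtain ⟨a1, a2⟩ := ih i v σ
      obtain ⟨s1, hs1⟩ : ∃ s1, s1 = sruns w (scode G r i) (v, σ) := ⟨_, rfl⟩
      rw [← hs1] at a1 a2 ⊢
      rw [sruns_cons, sruns_append]
      have e1 : SInstr.run w (.push 0) s1 = (s1.1, s1.1 0 :: s1.2) := rfl
      rw [e1]
      obtain ⟨b1, b2⟩ := ih j s1.1 (s1.1 0 :: s1.2)
      obtain ⟨s2, hs2⟩ : ∃ s2, s2 = sruns w (scode G r j) (s1.1, s1.1 0 :: s1.2) := ⟨_, rfl⟩
      rw [← hs2] at b1 b2 ⊢
      obtain ⟨u, τ⟩ := s2
      simp only at b1 b2
      subst b2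
      rw [sruns_cons, sruns_cons]
      have e2 : SInstr.run w (.pop 1) (u, s1.1 0 :: s1.2) =
          (Function.update u 1 (s1.1 0), s1.2) := rfl
      rw [e2]
      have e3 : SInstr.run w (.op I) (Function.update u 1 (s1.1 0), s1.2) =
          (I.run w (Function.update u 1 (s1.1 0)), s1.2) := rfl
      rw [e3]
      have e4 : sruns w ([] : List (SInstr R X (Fin 2)))
          (I.run w (Function.update u 1 (s1.1 0)), s1.2) =
          (I.run w (Function.update u 1 (s1.1 0)), s1.2) := rfl
      rw [e4, hI]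
      refine ⟨?_, a2⟩
      simp only
      rw [Function.update_self, Function.update_self, Function.update_of_ne (by decide), a1, b1]
    have hpar : par w G (r + 1) o = (G r o).val w (par w G r) := rfl
    rw [hpar]
    unfold scode
    split
    · rename_i x hx
      rw [hx]
      refine ⟨?_, rfl⟩
      show Function.update v 0 (w x) 0 = w x
      exact Function.update_self _ _ _
    · rename_i c hx
      rw [hx]
      refine ⟨?_, rfl⟩
      show Function.update v 0 c 0 = c
      exact Function.update_self _ _ _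
    · rename_i i hx
      rw [hx]
      exact ih i v σ
    · rename_i i j hx
      rw [hx]
      exact key (fun a b => a + b) (.add 0 1 0) (fun u => rfl) i j
    · rename_i i j hx
      rw [hx]
      exact key (fun a b => a * b) (.mul 0 1 0) (fun u => rfl) i j

/-- **Recursion on the stack.** -/
theorem ssim (G : ℕ → ρ → Gate R X ρ) (r : ℕ) (o : ρ) :
    ∃ p : List (SInstr R X (Fin 2)), p.length < 4 * 2 ^ r ∧
      ∀ w : X → R, sexec w p 0 = par w G r o :=
  ⟨scode G r o, by have := scode_length G r o; omega, fun w => (scode_run G w r o _ _).1⟩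

end Rec

/-- the transfer of the bound for the number of steps -/
theorem asym {ε c : ℝ} (hε : 0 < ε) (hc : 0 < c) (hc1 : c ≤ 1) (C : ℕ) : ∀ᶠ n : ℕ in atTop,
    ∀ D : ℕ, 1 ≤ D → (D : ℝ) ≤ Real.logb 2 n → ∀ K L S l : ℕ, (K : ℝ) ≤ (n : ℝ) ^ (1 - ε) →
      S ≤ C * (Nat.log 2 L + 1) → (l : ℝ) ≤ C * (L : ℝ) ^ (1 + 1 : ℝ) →
      (((K * S : ℕ) : ℝ) ≤ (n : ℝ) ^ (1 - ε / 2) → (n : ℝ) ^ (c * D) ≤ l) →
      (n : ℝ) ^ (c / 4 * D) ≤ L := by
  have e1 : ∀ᶠ n : ℕ in atTop, (C : ℝ) * (Real.logb 2 n ^ 2 + 1) ≤ (n : ℝ) ^ (ε / 2) := by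
    have h1 : (fun x : ℝ => (C : ℝ) * (Real.logb 2 x ^ 2 + 1)) =o[atTop] fun x => x ^ (ε / 2) := by
      apply Asymptotics.IsLittleO.const_mul_left
      have h2 : (fun x : ℝ => Real.logb 2 x ^ 2) =o[atTop] fun x => x ^ (ε / 2) := by
        have h3 := isLittleO_log_rpow_rpow_atTop (s := ε / 2) 2 (by positivity)
        have h4 : (fun x : ℝ => Real.logb 2 x ^ 2) = fun x => (1 / Real.log 2 ^ 2) *
            Real.log x ^ (2 : ℝ) := by
          funext x
          unfold Real.logb
          rw [div_pow, show (2 : ℝ) = ((2 : ℕ) : ℝ) by norm_num, Real.rpow_natCast]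
          ring
        rw [h4]
        exact h3.const_mul_left _
      have h5 : (fun _ : ℝ => (1 : ℝ)) =o[atTop] fun x => x ^ (ε / 2) := by
        rw [Asymptotics.isLittleO_one_left_iff]
        refine (tendsto_rpow_atTop (y := ε / 2) (by positivity)).congr' ?_
        filter_upwards [eventually_ge_atTop 0] with x hx
        rw [Real.norm_of_nonneg (Real.rpow_nonneg hx _)]
      exact h2.add h5
    have h6 := (h1.comp_tendsto tendsto_natCast_atTop_atTop).bound (show (0 : ℝ) < 1 by norm_num)
    filter_upwards [h6] with n hn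
    simp only [Function.comp_apply, one_mul] at hn
    have h7 : (0 : ℝ) ≤ (n : ℝ) ^ (ε / 2) := Real.rpow_nonneg (Nat.cast_nonneg _) _
    rw [Real.norm_of_nonneg h7] at hn
    exact (le_abs_self _).trans hn
  have e2 : ∀ᶠ n : ℕ in atTop, (C : ℝ) < (n : ℝ) ^ (c / 2) :=
    ((tendsto_rpow_atTop (by positivity)).comp tendsto_natCast_atTop_atTop).eventually
      (eventually_gt_atTop _)
  filter_upwards [e1, e2, eventually_ge_atTop 2] with n h1 h2 hn2 D hD hDn K L S l hK hS hl hcon
  have hn1 : (1 : ℝ) ≤ n := by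
    have : 1 ≤ n := by omega
    exact_mod_cast this
  have hn0 : (0 : ℝ) < n := by linarith
  have hD1 : (1 : ℝ) ≤ D := by exact_mod_cast hD
  by_contra hlt
  push Not at hlt
  have hlog0 : 0 ≤ Real.logb 2 n := Real.logb_nonneg (by norm_num) hn1
  have hlogL : (Nat.log 2 L : ℝ) ≤ Real.logb 2 n ^ 2 := by
    rcases Nat.eq_zero_or_pos L with h0 | h0
    · rw [h0]
      simp only [Nat.log_zero_right, Nat.cast_zero]
      positivity
    · have h3 : (Nat.log 2 L : ℝ) ≤ Real.logb 2 L := by
        rw [Real.le_logb_iff_rpow_le (by norm_num) (by exact_mod_cast h0), Real.rpow_natCast]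
        exact_mod_cast Nat.pow_log_le_self 2 h0.ne'
      have h4 : Real.logb 2 L ≤ c / 4 * D * Real.logb 2 n := by
        have := Real.logb_le_logb_of_le (b := 2) (by norm_num) (by exact_mod_cast h0) hlt.le
        rwa [Real.logb_rpow_eq_mul_logb_of_pos hn0] at this
      have h5 : c / 4 * D * Real.logb 2 n ≤ 1 * Real.logb 2 n * Real.logb 2 n := by
        apply mul_le_mul_of_nonneg_right _ hlog0
        have h6 : c / 4 * D ≤ 1 * D := mul_le_mul_of_nonneg_right (by linarith) (by linarith)
        linarith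
      calc (Nat.log 2 L : ℝ) ≤ 1 * Real.logb 2 n * Real.logb 2 n := h3.trans (h4.trans h5)
        _ = Real.logb 2 n ^ 2 := by ring
  have hKS : ((K * S : ℕ) : ℝ) ≤ (n : ℝ) ^ (1 - ε / 2) := by
    have h3 : (S : ℝ) ≤ C * (Real.logb 2 n ^ 2 + 1) := by
      have : (S : ℝ) ≤ C * ((Nat.log 2 L : ℝ) + 1) := by exact_mod_cast hS
      refine this.trans ?_
      apply mul_le_mul_of_nonneg_left _ (Nat.cast_nonneg _)
      linarith
    push_cast
    calc (K : ℝ) * S ≤ (n : ℝ) ^ (1 - ε) * (n : ℝ) ^ (ε / 2) :=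
          mul_le_mul hK (h3.trans h1) (Nat.cast_nonneg _) (by positivity)
      _ = (n : ℝ) ^ (1 - ε / 2) := by
          rw [← Real.rpow_add hn0]
          congr 1
          ring
  have h3 := hcon hKS
  have h4 : (L : ℝ) ^ (1 + 1 : ℝ) ≤ (n : ℝ) ^ (c / 2 * D) := by
    calc (L : ℝ) ^ (1 + 1 : ℝ) ≤ ((n : ℝ) ^ (c / 4 * D)) ^ (1 + 1 : ℝ) :=
          Real.rpow_le_rpow (Nat.cast_nonneg _) hlt.le (by norm_num)
      _ = (n : ℝ) ^ (c / 2 * D) := by
          rw [← Real.rpow_mul hn0.le]
          congr 1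
          ring
  have h5 : (n : ℝ) ^ (c * D) ≤ C * (n : ℝ) ^ (c / 2 * D) :=
    h3.trans (hl.trans (mul_le_mul_of_nonneg_left h4 (Nat.cast_nonneg _)))
  have h6 : (n : ℝ) ^ (c * D) = (n : ℝ) ^ (c / 2 * D) * (n : ℝ) ^ (c / 2 * D) := by
    rw [← Real.rpow_add hn0]
    congr 1
    ring
  rw [h6] at h5
  have h7 : 0 < (n : ℝ) ^ (c / 2 * D) := Real.rpow_pos_of_pos hn0 _
  have h8 : (n : ℝ) ^ (c / 2 * D) ≤ C := le_of_mul_le_mul_right h5 h7
  have h9 : (n : ℝ) ^ (c / 2) ≤ (n : ℝ) ^ (c / 2 * D) := by
    apply Real.rpow_le_rpow_of_exponent_le hn1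
    nlinarith
  linarith

end Pool.Agent.TH706.DT
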